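import Mathlib
import Pool.Agent.K3h4.Tri.One

/-!
# The five congruences modulo `p^2` for central binomial and trinomial coefficient sums

For every prime `p > 3` all five congruences of Q1 hold modulo `p^2`.

Sketch of the proof, `n = (p-1)/2`.  Modulo `p^2` one has `C(2j,j) = (-16)^j C(n+j,2j)` for `j ≤ n`,
and `∑_j (-1)^(n+j) C(n+j,2j) T_{2j}(2+2s,s^2) = ∑_i C(p+i,2i+1) C(2i,i) s^i`, which modulo `p^2` is
`L(-s)` with `L(y) = y^n + p ∑_{i<p, i≠n} y^i/(2i+1)`; the function `L` is evaluated at `1`, `-1`,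
`-3`, `4` through the two halves of the binomial expansion of `(1+√y)^p`.  This gives the second,
fourth and fifth congruences.  The first one is reduced by exact summation over `j` to
`∑_{i<n} C(n+i,2i) (-16/3)^i/(2i+1)`, which is a Chebyshev type sum with a closed form.  In the third
one (Catalan numbers) a summation by parts leads to the sum `∑_{k<p} ± P_k(3)` of Legendre
polynomials with signs `+ + - -`, whose expansion in powers of the argument is explicit.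
-/

set_option autoImplicit false

namespace Pool.Agent.Results.MP_20e244_nt.FiveCongruences

open Finset Polynomial

/-- the generalized central trinomial coefficient: the coefficient of `x^n` in `(x^2+bx+c)^n` -/
noncomputable def T (n : ℕ) (b c : ℤ) : ℤ := ((X ^ 2 + C b * X + C c : ℤ[X]) ^ n).coeff n

/-- the Legendre symbol `(p/3)` for a prime `p ≠ 3` -/
def chi3 (p : ℕ) : ℤ := if p % 3 = 1 then 1 else -1

/-- `x ≡ y (mod p^2)` for rational numbers `x`, `y` with denominators prime to `p`: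
`(x - y) / p^2` has denominator prime to `p`. -/
def CongrSq (p : ℕ) (x y : ℚ) : Prop :=
  ¬ p ∣ x.den ∧ ¬ p ∣ y.den ∧ ¬ p ∣ ((x - y) / (p : ℚ) ^ 2).den

open Pool.Agent.R439.PL Pool.Agent.R488.Tri

theorem congr_of_EQ {p : ℕ} [Fact p.Prime] {x y : ℚ} (h : EQ p 2 x y) : CongrSq p x y := by
  refine ⟨?_, ?_, den_of_I h.2.2⟩
  · have := den_of_I (p := p) (k := 0) (I_zero_iff.2 h.1)
    rwa [pow_zero, div_one] at this
  · have := den_of_I (p := p) (k := 0) (I_zero_iff.2 h.2.1)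
    rwa [pow_zero, div_one] at this

theorem chi3_s3 (p : ℕ) : ((chi3 p : ℤ) : ℚ) = s3 p := by
  rw [chi3, s3]; split_ifs <;> norm_num

theorem dvd_of_I {p : ℕ} [hp : Fact p.Prime] {x : ℤ} (h : I p 1 (x : ℚ)) : (p : ℤ) ∣ x := by
  obtain ⟨y, ⟨a, b, hb, rfl⟩, h⟩ := h
  have hb0 : (b : ℚ) ≠ 0 := by
    intro h0; apply hb; have : b = 0 := by exact_mod_cast h0
    rw [this]; exact dvd_zero _
  rw [pow_one, ← mul_div_assoc, eq_div_iff hb0] at h
  have h2 : x * b = p * a := by exact_mod_cast h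
  exact (Prime.dvd_or_dvd (pz (p := p)) (Dvd.intro a h2.symm)).resolve_right hb

theorem leg_neg_one {p n : ℕ} [Fact p.Prime] (hpn : p = 2 * n + 1) :
    ((legendreSym p (-1) : ℤ) : ℚ) = (-1) ^ n := by
  rw [legendreSym.at_neg_one (by omega), ZMod.χ₄_eq_neg_one_pow (by omega),
    show p / 2 = n by omega]
  push_cast; rfl

theorem leg_neg_three {p n : ℕ} [hp : Fact p.Prime] (hpn : p = 2 * n + 1) (h3 : 3 < p) :
    legendreSym p (-3) = chi3 p := by
  have h1 := legendreSym.eq_pow p (-3)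
  rw [show p / 2 = n by omega] at h1
  have h2 := (Pool.Agent.K3h4.Tri.stmtVal p n hpn h3).2.2.2.2.2.2
  rw [← chi3_s3] at h2
  have h4 : (p : ℤ) ∣ (-3) ^ n - chi3 p := dvd_of_I (by push_cast; exact h2)
  have h5 : (((-3) ^ n - chi3 p : ℤ) : ZMod p) = 0 := (ZMod.intCast_zmod_eq_zero_iff_dvd _ p).2 h4
  have h6 : ((legendreSym p (-3) - chi3 p : ℤ) : ZMod p) = 0 := by
    push_cast at h5 h1 ⊢
    rw [h1]; exact h5
  have h7 := (ZMod.intCast_zmod_eq_zero_iff_dvd _ p).1 h6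
  have h8 : ¬ (p : ℤ) ∣ -3 := by
    intro h
    have := Int.le_of_dvd (by norm_num) ((dvd_neg).2 h)
    omega
  have h9 : ((-3 : ℤ) : ZMod p) ≠ 0 := fun h => h8 ((ZMod.intCast_zmod_eq_zero_iff_dvd _ p).1 h)
  have h10 := legendreSym.eq_one_or_neg_one p h9
  have h11 : chi3 p = 1 ∨ chi3 p = -1 := by rw [chi3]; split_ifs <;> simp
  have h12 : (3 : ℤ) < p := by exact_mod_cast h3
  rcases h10 with h | h <;> rcases h11 with h' | h' <;> rw [h, h'] at h7 ⊢
  · exact absurd (Int.le_of_dvd (by norm_num) h7) (by omega)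
  · exact absurd (Int.le_of_dvd (by norm_num) ((dvd_neg).2 h7)) (by omega)

theorem leg_three {p n : ℕ} [hp : Fact p.Prime] (hpn : p = 2 * n + 1) (h3 : 3 < p) :
    ((legendreSym p 3 : ℤ) : ℚ) = (-1) ^ n * s3 p := by
  have h1 : legendreSym p 3 = legendreSym p (-1) * legendreSym p (-3) := by
    rw [← legendreSym.mul]; norm_num
  rw [h1, leg_neg_three hpn h3]
  push_cast
  rw [leg_neg_one hpn, chi3_s3]

/-- Full (positive) answer to Q1. -/
theorem result (p : ℕ) [Fact p.Prime] (h3 : 3 < p) :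
    CongrSq p (∑ j ∈ range p, (T j 1 1 : ℚ) * ((2 * j).choose j : ℚ) / 12 ^ j)
      ((3 + 3 ^ (p - 1)) / 4 * (chi3 p : ℚ)) ∧
    CongrSq p (∑ j ∈ range ((p - 1) / 2 + 1), (T (2 * j) 4 1 : ℚ) * ((2 * j).choose j : ℚ) / 16 ^ j) 1 ∧
    CongrSq p (∑ j ∈ range ((p - 1) / 2 + 1), (T (2 * j) 4 1 : ℚ) * (catalan j : ℚ) / 16 ^ j)
      (4 / 3 * ((legendreSym p 3 : ℚ) - p * (legendreSym p (-1) : ℚ))) ∧
    CongrSq p (∑ j ∈ range ((p - 1) / 2 + 1), (T (2 * j) 3 4 : ℚ) * ((2 * j).choose j : ℚ) / 4 ^ j)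
      ((7 - 3 ^ p) / 4 * (legendreSym p (-1) : ℚ)) ∧
    CongrSq p (∑ j ∈ range ((p - 1) / 2 + 1), (T (2 * j) 8 9 : ℚ) * ((2 * j).choose j : ℚ) / 16 ^ j)
      (legendreSym p 3 : ℚ) := by
  obtain ⟨n, hpn⟩ : ∃ n, p = 2 * n + 1 := by
    rcases (Fact.out : p.Prime).eq_two_or_odd with h | h
    · omega
    · exact ⟨p / 2, by omega⟩
  have hn : (p - 1) / 2 = n := by omega
  rw [hn, leg_three hpn h3, leg_neg_one hpn, chi3_s3]
  exact ⟨congr_of_EQ (Pool.Agent.K3h4.Tri.one_ hpn h3), congr_of_EQ (Pool.Agent.K3h4.Tri.two_ hpn h3),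
    congr_of_EQ (Pool.Agent.K3h4.Tri.three_ hpn h3), congr_of_EQ (Pool.Agent.K3h4.Tri.four_ hpn h3),
    congr_of_EQ (Pool.Agent.K3h4.Tri.five_ hpn h3)⟩

end Pool.Agent.Results.MP_20e244_nt.FiveCongruences
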